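import Pool.Agent.W593.IR.Stm

/-! Explicit ranges of `CondB` with constant `2` and of `CondA`. -/

set_option autoImplicit false

namespace Pool.Agent.W479.IR

open Finset Pool.Agent.W593.IR

theorem log_up {x : ℝ} (h0 : 0 ≤ x) (h1 : x < 1) : Real.log (1 - x) ≤ -x - x ^ 2 / 2 := by
  have h := Real.hasSum_pow_div_log_of_abs_lt_one (x := x) (by rw [abs_of_nonneg h0]; exact h1)
  have h2 := sum_le_hasSum (Finset.range 2) (fun i _ => by positivity) h
  rw [Finset.sum_range_succ, Finset.sum_range_one] at h2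
  norm_num at h2
  linarith

theorem log_low {t : ℝ} (h0 : 0 ≤ t) (h1 : t ≤ 3 / 100) :
    -t - t ^ 2 / 2 - t ^ 3 * (100 / 97) ≤ Real.log (1 - t) := by
  have h := Real.abs_log_sub_add_sum_range_le (x := t)
    (by rw [abs_of_nonneg h0]; linarith) 2
  rw [Finset.sum_range_succ, Finset.sum_range_one, abs_of_nonneg h0] at h
  norm_num at h
  have h2 : t ^ 3 / (1 - t) ≤ t ^ 3 * (100 / 97) := by
    rw [div_eq_mul_inv]
    apply mul_le_mul_of_nonneg_left _ (by positivity)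
    rw [inv_le_comm₀ (by linarith) (by norm_num)]
    norm_num; linarith
  have h3 := (abs_le.1 h).1
  linarith

theorem exp_25 : Real.exp (2 / 5) ≤ 149183 / 100000 := by
  by_contra hcon
  push Not at hcon
  have h1 : (149183 / 100000 : ℝ) ^ 5 < Real.exp (2 / 5) ^ 5 :=
    pow_lt_pow_left₀ hcon (by norm_num) (by norm_num)
  have h2 : Real.exp (2 / 5) ^ 5 = Real.exp 1 ^ 2 := by
    rw [← Real.exp_nat_mul, ← Real.exp_nat_mul]; norm_num
  have h3 := Real.exp_one_lt_d9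
  have h4 : Real.exp 1 ^ 2 < (2.7182818286 : ℝ) ^ 2 :=
    pow_lt_pow_left₀ h3 (Real.exp_pos 1).le (by norm_num)
  rw [h2] at h1
  have h5 := h1.trans h4
  norm_num at h5

theorem exp_35 : 5488 / 10000 ≤ Real.exp (-(3 / 5)) := by
  have h0 : Real.exp (3 / 5) ≤ 182215 / 100000 := by
    by_contra hcon
    push Not at hcon
    have h1 : (182215 / 100000 : ℝ) ^ 5 < Real.exp (3 / 5) ^ 5 :=
      pow_lt_pow_left₀ hcon (by norm_num) (by norm_num)
    have h2 : Real.exp (3 / 5) ^ 5 = Real.exp 1 ^ 3 := by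
      rw [← Real.exp_nat_mul, ← Real.exp_nat_mul]; norm_num
    have h3 := Real.exp_one_lt_d9
    have h4 : Real.exp 1 ^ 3 < (2.7182818286 : ℝ) ^ 3 :=
      pow_lt_pow_left₀ h3 (Real.exp_pos 1).le (by norm_num)
    rw [h2] at h1
    have h5 := h1.trans h4
    norm_num at h5
  rw [Real.exp_neg, le_inv_comm₀ (by norm_num) (Real.exp_pos _)]
  refine h0.trans ?_
  norm_num

theorem pow_low {k : ℕ} (hk : 20 ≤ k) :
    (5488 / 10000) * (1 - (18 / 100 * (1 / (k : ℝ)) + 1 / 4 * (1 / (k : ℝ)) ^ 2)) ≤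
      (1 - 3 / (5 * (k : ℝ))) ^ k := by
  have hk0 : (20 : ℝ) ≤ k := by exact_mod_cast hk
  set u : ℝ := 1 / (k : ℝ) with hu
  have hu0 : 0 < u := by positivity
  have hku : (k : ℝ) * u = 1 := by rw [hu]; field_simp
  have hu1 : u ≤ 1 / 20 := by
    rw [hu]; exact one_div_le_one_div_of_le (by norm_num) hk0
  have h1 : 3 / (5 * (k : ℝ)) = 3 / 5 * u := by rw [hu]; field_simp
  rw [h1]
  have h2 := log_low (t := 3 / 5 * u) (by positivity) (by linarith)
  have hpos : 0 < 1 - 3 / 5 * u := by linarith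
  have h3 : (1 - 3 / 5 * u) ^ k = Real.exp (k * Real.log (1 - 3 / 5 * u)) := by
    rw [Real.exp_nat_mul, Real.exp_log hpos]
  rw [h3]
  have h4 : -(3 / 5) - (18 / 100 * u + 1 / 4 * u ^ 2) ≤ k * Real.log (1 - 3 / 5 * u) := by
    have h5 := mul_le_mul_of_nonneg_left h2 (by positivity : (0 : ℝ) ≤ k)
    have h6 : (k : ℝ) * (-(3 / 5 * u) - (3 / 5 * u) ^ 2 / 2 - (3 / 5 * u) ^ 3 * (100 / 97)) =
        -(3 / 5) * (k * u) - (9 / 50) * (k * u) * u - 27 / 125 * (100 / 97) * (k * u) * u ^ 2 := by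
      ring
    rw [h6, hku] at h5
    have h7 : 0 ≤ u ^ 2 := by positivity
    nlinarith
  have h8 := Real.exp_le_exp.2 h4
  have h9 : Real.exp (-(3 / 5)) * (1 - (18 / 100 * u + 1 / 4 * u ^ 2)) ≤
      Real.exp (-(3 / 5) - (18 / 100 * u + 1 / 4 * u ^ 2)) := by
    rw [sub_eq_add_neg (-(3 / 5)) _, Real.exp_add]
    apply mul_le_mul_of_nonneg_left _ (Real.exp_pos _).le
    have := Real.add_one_le_exp (-(18 / 100 * u + 1 / 4 * u ^ 2))
    linarith
  refine le_trans ?_ (h9.trans h8)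
  apply mul_le_mul_of_nonneg_right exp_35
  nlinarith

theorem pow_up {k : ℕ} (hk : 20 ≤ k) :
    (1 - 1 / (k : ℝ)) ^ (k - 1) ≤
      (36788 / 100000) * (1 + 1 / 2 * (1 / (k : ℝ)) + 1 * (1 / (k : ℝ)) ^ 2) := by
  have hk0 : (20 : ℝ) ≤ k := by exact_mod_cast hk
  set u : ℝ := 1 / (k : ℝ) with hu
  have hu0 : 0 < u := by positivity
  have hku : (k : ℝ) * u = 1 := by rw [hu]; field_simp
  have hu1 : u ≤ 1 / 20 := by
    rw [hu]; exact one_div_le_one_div_of_le (by norm_num) hk0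
  have hpos : 0 < 1 - u := by linarith
  have h3 : (1 - u) ^ (k - 1) = Real.exp (((k - 1 : ℕ) : ℝ) * Real.log (1 - u)) := by
    rw [Real.exp_nat_mul, Real.exp_log hpos]
  rw [h3]
  have hc : ((k - 1 : ℕ) : ℝ) = k - 1 := by
    rw [Nat.cast_sub (by omega)]; simp
  have h2 := log_up hu0.le (by linarith : u < 1)
  have h4 : ((k - 1 : ℕ) : ℝ) * Real.log (1 - u) ≤ -1 + (u / 2 + u ^ 2 / 2) := by
    have h5 := mul_le_mul_of_nonneg_left h2 (by positivity : (0 : ℝ) ≤ ((k - 1 : ℕ) : ℝ))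
    refine h5.trans (le_of_eq ?_)
    rw [hc]
    have h6 : ((k : ℝ) - 1) * (-u - u ^ 2 / 2) = -(k * u) - (k * u) * u / 2 + u + u ^ 2 / 2 := by
      ring
    rw [h6, hku]; ring
  refine (Real.exp_le_exp.2 h4).trans ?_
  rw [Real.exp_add]
  have h7 : Real.exp (-1) ≤ 36788 / 100000 := by
    have := Real.exp_neg_one_lt_d9
    norm_num at this ⊢
    linarith
  have h8 : Real.exp (u / 2 + u ^ 2 / 2) ≤ 1 + 1 / 2 * u + 1 * u ^ 2 := by
    have h9 := Real.abs_exp_sub_one_sub_id_le (x := u / 2 + u ^ 2 / 2)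
      (by rw [abs_of_nonneg (by positivity)]; nlinarith)
    have h10 := (abs_le.1 h9).2
    have h11 : (u / 2 + u ^ 2 / 2) ^ 2 ≤ 1 / 2 * u ^ 2 := by
      have h12 : (u / 2 + u ^ 2 / 2) = u * (1 / 2 + u / 2) := by ring
      rw [h12, mul_pow, mul_comm]
      apply mul_le_mul_of_nonneg_right _ (by positivity)
      nlinarith
    linarith
  exact mul_le_mul h7 h8 (Real.exp_pos _).le (by norm_num)

/-- the explicit inequality -/
theorem ineq {k : ℕ} (hk : 2 ≤ k) :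
    (1 + 2 / (5 * (k : ℝ))) ^ k - (1 - 3 / (5 * (k : ℝ))) ^ k ≤
      3 / 2 - (1 - 1 / (k : ℝ)) ^ (k - 1) * (3 / 2 - 1 / (k : ℝ)) := by
  by_cases h20 : 20 ≤ k
  · have hk0 : (20 : ℝ) ≤ k := by exact_mod_cast h20
    have h1 := pow_low h20
    have h2 := pow_up h20
    set u : ℝ := 1 / (k : ℝ) with hu
    have hu0 : 0 < u := by positivity
    have hku : (k : ℝ) * u = 1 := by rw [hu]; field_simp
    have hu1 : u ≤ 1 / 20 := by
      rw [hu]; exact one_div_le_one_div_of_le (by norm_num) hk0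
    have h3 : (1 + 2 / (5 * (k : ℝ))) ^ k ≤ 149183 / 100000 := by
      refine le_trans ?_ exp_25
      have h4 : 1 + 2 / (5 * (k : ℝ)) ≤ Real.exp (2 / (5 * (k : ℝ))) := by
        have := Real.add_one_le_exp (2 / (5 * (k : ℝ)))
        linarith
      have h5 := pow_le_pow_left₀ (by positivity) h4 k
      rw [← Real.exp_nat_mul] at h5
      have h6 : (k : ℝ) * (2 / (5 * (k : ℝ))) = 2 / 5 := by field_simp
      rw [h6] at h5
      exact h5
    have h4 := mul_le_mul_of_nonneg_right h2 (by linarith : 0 ≤ 3 / 2 - u)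
    nlinarith [mul_pos hu0 hu0, mul_pos (mul_pos hu0 hu0) hu0]
  · push Not at h20
    interval_cases k <;> norm_num

theorem mono {k : ℕ} (hk : 1 ≤ k) {x0 x : ℝ} (h0 : 0 < x0) (h : x0 ≤ x) (h1 : x ≤ 1) :
    (1 - (1 - x) ^ k) * x0 ^ k ≤ (1 - (1 - x0) ^ k) * x ^ k := by
  have hg : ∀ z : ℝ, 1 - (1 - z) ^ k = z * ∑ i ∈ range k, (1 - z) ^ i := by
    intro z
    have := mul_neg_geom_sum (1 - z) k
    rw [← this]; ring
  have hx : 0 < x := h0.trans_le h
  obtain ⟨n, rfl⟩ : ∃ n, k = n + 1 := ⟨k - 1, by omega⟩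
  rw [hg x, hg x0]
  have h2 : ∑ i ∈ range (n + 1), (1 - x) ^ i ≤ ∑ i ∈ range (n + 1), (1 - x0) ^ i :=
    Finset.sum_le_sum fun i _ => pow_le_pow_left₀ (by linarith) (by linarith) i
  have h3 : 0 ≤ ∑ i ∈ range (n + 1), (1 - x) ^ i :=
    Finset.sum_nonneg fun i _ => pow_nonneg (by linarith) i
  have h4 : x0 ^ n ≤ x ^ n := pow_le_pow_left₀ h0.le h n
  calc x * (∑ i ∈ range (n + 1), (1 - x) ^ i) * x0 ^ (n + 1)
      = (x * x0) * ((∑ i ∈ range (n + 1), (1 - x) ^ i) * x0 ^ n) := by ring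
    _ ≤ (x * x0) * ((∑ i ∈ range (n + 1), (1 - x0) ^ i) * x ^ n) := by
        apply mul_le_mul_of_nonneg_left _ (by positivity)
        exact mul_le_mul h2 h4 (by positivity) (h3.trans h2)
    _ = x0 * (∑ i ∈ range (n + 1), (1 - x0) ^ i) * x ^ (n + 1) := by ring

theorem rgb : S_RGB := by
  intro k hk x hx1 hx2
  have hk0 : (2 : ℝ) ≤ k := by exact_mod_cast hk
  have hkpos : (0 : ℝ) < k := by linarith
  set x0 : ℝ := 5 / (5 * k + 2) with hx0
  have hx0pos : 0 < x0 := by positivity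
  have hle : x0 ≤ x := by
    rw [hx0, div_le_iff₀ (by positivity)]
    linarith
  have hx1' : x ≤ 1 := by
    refine hx1.trans ?_
    rw [div_le_one hkpos]; linarith
  have h1 := mono (k := k) (by omega) hx0pos hle hx1'
  set Q : ℝ := 1 - 1 / (k : ℝ) with hQ
  set B : ℝ := 1 - Q ^ k + (1 - Q ^ (k - 1)) / 2 with hB
  have hQk : Q ^ k = Q ^ (k - 1) * Q := by
    rw [← pow_succ]; congr 1; omega
  have hB2 : B = 3 / 2 - Q ^ (k - 1) * (3 / 2 - 1 / (k : ℝ)) := by
    rw [hB, hQk, hQ]; ring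
  -- the inequality at `x0`
  have h2 : 1 - (1 - x0) ^ k ≤ (k * x0) ^ k * B := by
    have h3 := ineq hk
    rw [← hQ, ← hB2] at h3
    have h4 : (k * x0) * (1 + 2 / (5 * (k : ℝ))) = 1 := by
      rw [hx0]; field_simp
    have h5 : (k * x0) * (1 - 3 / (5 * (k : ℝ))) = 1 - x0 := by
      rw [hx0]; field_simp; ring
    have h6 := mul_le_mul_of_nonneg_left h3 (by positivity : 0 ≤ (k * x0) ^ k)
    rw [mul_sub, ← mul_pow, ← mul_pow, h4, h5, one_pow] at h6
    exact h6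
  have h3 : (1 - (1 - x) ^ k) * x0 ^ k ≤ ((k * x) ^ k * B) * x0 ^ k := by
    refine h1.trans ?_
    have h4 := mul_le_mul_of_nonneg_right h2 (pow_nonneg (hx0pos.le.trans hle) k)
    refine h4.trans (le_of_eq ?_)
    rw [mul_pow, mul_pow]; ring
  have h4 := le_of_mul_le_mul_right h3 (pow_pos hx0pos k)
  have h5 : (k * x) ^ k * B = (k * x) ^ k - (k * x) ^ k * (Q ^ k - (1 - Q ^ (k - 1)) / 2) := by
    rw [hB]; ring
  linarith

/-! ### the other range -/

theorem mlem {lam A B : ℝ} (h0 : 0 ≤ lam) (h1 : lam ≤ 1) (hA : A ≤ 1) (hB : B ≤ 1) :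
    (1 - lam + lam * A) * (1 - lam + lam * B) ≤ 1 - lam + lam * (A * B) := by
  have : 0 ≤ lam * (1 - lam) * ((1 - A) * (1 - B)) := by
    apply mul_nonneg (mul_nonneg h0 (by linarith)) (mul_nonneg (by linarith) (by linarith))
  nlinarith

theorem mpow {lam p : ℝ} (h0 : 0 ≤ lam) (h1 : lam ≤ 1) (hp0 : 0 ≤ p) (hp : p ≤ 1) (k : ℕ) :
    (1 - lam + lam * p) ^ k ≤ 1 - lam + lam * p ^ k := by
  induction k with
  | zero => simp
  | succ k ih =>
    rw [pow_succ, pow_succ]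
    have h2 : 0 ≤ 1 - lam + lam * p := by
      have := mul_nonneg h0 hp0
      linarith
    exact (mul_le_mul_of_nonneg_right ih h2).trans (mlem h0 h1 (pow_le_one₀ hp0 hp) hp)

/-- the end point -/
theorem endp {k : ℕ} (hk : 2 ≤ k) : (1 - 8 / (8 * (k : ℝ) + 5)) ^ k ≤ 5 / 13 := by
  by_cases h4 : 4 ≤ k
  · have hk0 : (4 : ℝ) ≤ k := by exact_mod_cast h4
    set x : ℝ := 8 / (8 * (k : ℝ) + 5) with hx
    have hx0 : 0 < x := by positivity
    have hx1 : x < 1 := by rw [hx, div_lt_one (by positivity)]; linarith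
    have h1 : (1 - x) ^ k = Real.exp (k * Real.log (1 - x)) := by
      rw [Real.exp_nat_mul, Real.exp_log (by linarith)]
    rw [h1]
    have h2 := mul_le_mul_of_nonneg_left (log_up hx0.le hx1) (by positivity : (0 : ℝ) ≤ k)
    have h3 : (k : ℝ) * (-x - x ^ 2 / 2) ≤ - (958 / 1000) := by
      have h4 : (k : ℝ) = 1 / x - 5 / 8 := by
        rw [hx]; field_simp; ring
      have hx2 : x ≤ 8 / 37 := by
        rw [hx]; apply div_le_div_of_nonneg_left (by norm_num) (by norm_num); linarith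
      rw [h4]
      have h5 : (1 / x - 5 / 8) * (-x - x ^ 2 / 2) = -1 - x / 2 + 5 / 8 * x + 5 / 16 * x ^ 2 := by
        field_simp; ring
      rw [h5]
      nlinarith
    have h5 := Real.exp_le_exp.2 (h2.trans h3)
    refine h5.trans ?_
    rw [Real.exp_neg, inv_le_comm₀ (Real.exp_pos _) (by norm_num)]
    have h6 : Real.exp (958 / 1000) = Real.exp 1 * Real.exp (-(42 / 1000)) := by
      rw [← Real.exp_add]; norm_num
    rw [h6]
    have h7 := Real.exp_one_gt_d9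
    have h8 := Real.add_one_le_exp (-(42 / 1000 : ℝ))
    have h9 : (2.7182818283 : ℝ) * (1 - 42 / 1000) ≤ Real.exp 1 * Real.exp (-(42 / 1000)) :=
      mul_le_mul h7.le (by linarith) (by norm_num) (Real.exp_pos 1).le
    refine le_trans ?_ h9
    norm_num
  · push Not at h4
    interval_cases k <;> norm_num

theorem rga : ∀ k : ℕ, 2 ≤ k → ∀ x : ℝ, 0 < x → (8 * (k : ℝ) + 5) * x ≤ 8 →
    (k : ℝ) * x < 1 ∧ CondA k x := by
  intro k hk x hx0 hx
  have hk0 : (2 : ℝ) ≤ k := by exact_mod_cast hk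
  have hkx : (k : ℝ) * x < 1 := by nlinarith
  refine ⟨hkx, ?_⟩
  unfold CondA
  have hden : 0 < 1 - ((k : ℝ) - 1) * x := by nlinarith
  rw [le_div_iff₀ hden]
  set x1 : ℝ := 8 / (8 * (k : ℝ) + 5) with hx1
  have hx1pos : 0 < x1 := by positivity
  have hx1lt : x1 ≤ 1 := by rw [hx1, div_le_one (by positivity)]; linarith
  set lam : ℝ := x / x1 with hlam
  have hl0 : 0 ≤ lam := by positivity
  have hl1 : lam ≤ 1 := by
    rw [hlam, div_le_one hx1pos, hx1, le_div_iff₀ (by positivity)]; linarith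
  have hlx : lam * x1 = x := by rw [hlam]; field_simp
  have hB : ((k : ℝ) - 1) * x1 ≤ 1 := by
    rw [hx1, mul_div_assoc', div_le_one (by positivity)]; linarith
  have h1 : (1 - x) ^ k ≤ 1 - lam + lam * (1 - x1) ^ k := by
    have h2 := mpow hl0 hl1 (by linarith : 0 ≤ 1 - x1) (by linarith) k
    have h3 : 1 - lam + lam * (1 - x1) = 1 - x := by rw [← hlx]; ring
    rw [h3] at h2
    exact h2
  have h2 : 1 - ((k : ℝ) - 1) * x = 1 - lam + lam * (1 - ((k : ℝ) - 1) * x1) := by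
    rw [← hlx]; ring
  have h3 := mul_le_mul_of_nonneg_right h1 hden.le
  refine h3.trans ?_
  rw [h2]
  have h4 : 0 ≤ ((k : ℝ) - 1) * x1 := mul_nonneg (by linarith) hx1pos.le
  refine (mlem hl0 hl1 (pow_le_one₀ (by linarith) (by linarith)) (by linarith)).trans ?_
  have h5 : (1 - x1) ^ k * (1 - ((k : ℝ) - 1) * x1) ≤ 1 - k * x1 := by
    have h6 := endp hk
    rw [← hx1] at h6
    have h7 : 1 - ((k : ℝ) - 1) * x1 = 13 / (8 * (k : ℝ) + 5) := by
      rw [hx1]; field_simp; ring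
    have h8 : 1 - k * x1 = 5 / (8 * (k : ℝ) + 5) := by
      rw [hx1]; field_simp; ring
    rw [h7, h8]
    have h9 := mul_le_mul_of_nonneg_right h6 (by positivity : 0 ≤ 13 / (8 * (k : ℝ) + 5))
    refine h9.trans (le_of_eq ?_)
    field_simp
  have h6 := mul_le_mul_of_nonneg_left h5 hl0
  have h7 : lam * (1 - k * x1) = lam - k * x := by rw [← hlx]; ring
  linarith

end Pool.Agent.W479.IR
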